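import Pool.Agent.BEB.Stmts

/-!
# Squad BEB, row HLI: the theorem of Hermite and Lindemann
-/

namespace Pool.Agent.BEB.H93

open Polynomial Filter Topology
open scoped Nat

noncomputable section

/-- `a^d g(s)` is integral if `a s` is integral and `deg g ≤ d`. -/
theorem integral_pow_mul {K : Type} [Field K] (a : ℤ) (s : K) (h : IsIntegral ℤ ((a : K) * s))
    (g : ℤ[X]) (d : ℕ) (hd : g.natDegree ≤ d) : IsIntegral ℤ ((a : K) ^ d * aeval s g) := by
  rw [aeval_eq_sum_range' (lt_of_le_of_lt hd (Nat.lt_succ_self d)), Finset.mul_sum]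
  refine IsIntegral.sum _ (fun k hk => ?_)
  have hk' : k ≤ d := Nat.lt_succ_iff.1 (Finset.mem_range.1 hk)
  have e : (a : K) ^ d * (g.coeff k • s ^ k) =
      ((g.coeff k : ℤ) : K) * ((a : K) ^ (d - k) * ((a : K) * s) ^ k) := by
    rw [zsmul_eq_mul, mul_pow]
    have : (a : K) ^ d = (a : K) ^ (d - k) * (a : K) ^ k := by
      rw [← pow_add, Nat.sub_add_cancel hk']
    rw [this]
    ring
  rw [e]
  have hi : ∀ z : ℤ, IsIntegral ℤ ((z : ℤ) : K) := fun z => by
    have := isIntegral_algebraMap (R := ℤ) (A := K) (x := z)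
    simpa using this
  exact (hi _).mul (((hi a).pow _).mul (h.pow _))

theorem core (K : Type) [Field K] [Algebra ℚ K] [FiniteDimensional ℚ K] [IsGalois ℚ K]
    (ι : K →+* ℂ) (S : Finset K) (w : K → ℤ) (w0 : ℤ) (hw0 : w0 ≠ 0) (h0 : (0 : K) ∉ S)
    (hS : ∀ (σ : Gal(K/ℚ)) (s : K), s ∈ S → σ s ∈ S) (hw : ∀ (σ : Gal(K/ℚ)) (s : K), w (σ s) = w s)
    (hsum : (w0 : ℂ) + ∑ s ∈ S, (w s : ℂ) * Complex.exp (ι s) = 0) : False := by
  classical
  have : CharZero K := algebraRat.charZero K
  have halg : ∀ s : K, IsAlgebraic ℤ s := fun s => by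
    have h1 : IsAlgebraic ℚ s := Algebra.IsAlgebraic.isAlgebraic s
    exact (IsFractionRing.isAlgebraic_iff ℤ ℚ K).2 h1
  -- the polynomial f
  have hq : ∀ s : K, ∃ q : ℤ[X], q.coeff 0 ≠ 0 ∧ (s ≠ 0 → aeval s q = 0) := by
    intro s
    by_cases hs : s = 0
    · exact ⟨1, by simp, fun h => absurd hs h⟩
    · obtain ⟨q, h1, h2⟩ := (halg s).exists_nonzero_coeff_and_aeval_eq_zero
        (mem_nonZeroDivisors_of_ne_zero hs)
      exact ⟨q, h1, fun _ => h2⟩
  choose q hq0 hqs using hq
  set f : ℤ[X] := ∏ s ∈ S, q s with hf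
  have hf0 : f.eval 0 ≠ 0 := by
    rw [hf, eval_prod]
    refine Finset.prod_ne_zero_iff.2 (fun s _ => ?_)
    rw [← coeff_zero_eq_eval_zero]
    exact hq0 s
  have hfne : f ≠ 0 := by
    rintro h
    rw [h] at hf0
    simp at hf0
  have hroot : ∀ s ∈ S, ι s ∈ f.aroots ℂ := by
    intro s hs
    rw [mem_aroots]
    refine ⟨hfne, ?_⟩
    have hs0 : s ≠ 0 := fun h => h0 (h ▸ hs)
    have h1 : aeval s f = 0 := by
      rw [hf, map_prod]
      exact Finset.prod_eq_zero hs (hqs s hs0)
    have h2 : aeval (ι s) f = ι (aeval s f) := by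
      rw [aeval_def, aeval_def, hom_eval₂]
      congr 1
      exact RingHom.ext_int _ _
    rw [h2, h1, map_zero]
  obtain ⟨c, hc⟩ := LindemannWeierstrass.exp_polynomial_approx f hf0
  -- a common denominator
  obtain ⟨a, ha0, ha⟩ : ∃ a : ℤ, a ≠ 0 ∧ ∀ s ∈ S, IsIntegral ℤ ((a : K) * s) := by
    have : Algebra.IsAlgebraic ℤ K := ⟨halg⟩
    obtain ⟨y, hy, hy2⟩ := Algebra.IsAlgebraic.exists_integral_multiples ℤ S (A := K)
    refine ⟨y, hy, fun s hs => ?_⟩
    have := hy2 s hs
    rwa [zsmul_eq_mul] at this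
  set D : ℕ := f.natDegree with hD
  set M : ℝ := ∑ s ∈ S, |(w s : ℝ)| with hM
  have hM0 : 0 ≤ M := Finset.sum_nonneg fun s _ => abs_nonneg _
  -- the limit
  have hlim : Tendsto (fun p : ℕ => M * ((|(a : ℝ)| ^ D * |c|) ^ p / (p - 1)!)) atTop (𝓝 0) := by
    have h1 := FloorSemiring.tendsto_pow_div_factorial_atTop (|(a : ℝ)| ^ D * |c|)
    have h2 : Tendsto (fun p : ℕ => M * ((|(a : ℝ)| ^ D * |c|) *
        ((|(a : ℝ)| ^ D * |c|) ^ (p - 1) / (p - 1)!))) atTop (𝓝 (M * ((|(a : ℝ)| ^ D * |c|) * 0))) :=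
      ((h1.comp (tendsto_sub_atTop_nat 1)).const_mul _).const_mul _
    rw [mul_zero, mul_zero] at h2
    refine h2.congr' ?_
    filter_upwards [eventually_ge_atTop 1] with p hp
    obtain ⟨k, rfl⟩ : ∃ k, p = k + 1 := ⟨p - 1, by omega⟩
    simp only [Nat.add_sub_cancel]
    rw [pow_succ]
    ring
  obtain ⟨N, hN⟩ := eventually_atTop.1 (hlim.eventually (gt_mem_nhds one_pos))
  obtain ⟨p, hpN, hp⟩ := Nat.exists_infinite_primes
    (N + (eval 0 f).natAbs + a.natAbs + w0.natAbs + 1)
  obtain ⟨n, hn, g, hg, happ⟩ := hc p (by omega) hp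
  have hsmall := hN p (by omega)
  -- the element T
  set T : K := ∑ s ∈ S, ((w s : ℤ) : K) * aeval s g with hT
  have hTfix : ∀ σ : Gal(K/ℚ), σ T = T := by
    intro σ
    rw [hT, map_sum]
    have h1 : ∀ s : K, σ (((w s : ℤ) : K) * aeval s g) = ((w (σ s) : ℤ) : K) * aeval (σ s) g := by
      intro s
      rw [map_mul, map_intCast, hw σ s]
      congr 1
      have := (Polynomial.aeval_algHom_apply ((σ : K →ₐ[ℚ] K).restrictScalars ℤ) s g).symm
      simpa using this
    simp_rw [h1]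
    refine Finset.sum_bij (fun s _ => σ s) (fun s hs => hS σ s hs)
      (fun s _ t _ h => σ.injective h) (fun s hs => ⟨σ.symm s, hS σ⁻¹ s hs, by simp⟩)
      (fun s _ => rfl)
  obtain ⟨r, hr⟩ : ∃ r : ℚ, algebraMap ℚ K r = T :=
    (IsGalois.mem_range_algebraMap_iff_fixed T).2 hTfix
  have hTint : IsIntegral ℤ ((a : K) ^ (p * D) * T) := by
    rw [hT, Finset.mul_sum]
    refine IsIntegral.sum _ (fun s hs => ?_)
    have h1 := integral_pow_mul a s (ha s hs) g (p * D) (hg.trans (Nat.sub_le _ _))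
    have hi : IsIntegral ℤ ((w s : ℤ) : K) := by
      have := isIntegral_algebraMap (R := ℤ) (A := K) (x := w s)
      simpa using this
    have e : (a : K) ^ (p * D) * (((w s : ℤ) : K) * aeval s g) =
        ((w s : ℤ) : K) * ((a : K) ^ (p * D) * aeval s g) := by ring
    rw [e]
    exact hi.mul h1
  obtain ⟨z, hz⟩ : ∃ z : ℤ, (z : K) = (a : K) ^ (p * D) * T := by
    have h1 : IsIntegral ℤ ((a : ℚ) ^ (p * D) * r) := by
      refine (isIntegral_algebraMap_iff (A := ℚ) (B := K) (algebraMap ℚ K).injective).1 ?_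
      rw [map_mul, map_pow, hr, map_intCast]
      exact hTint
    obtain ⟨z, hz⟩ := IsIntegrallyClosed.isIntegral_iff.1 h1
    refine ⟨z, ?_⟩
    have h2 := congrArg (algebraMap ℚ K) hz
    rw [map_mul, map_pow, hr, map_intCast] at h2
    rw [← h2]
    simp
  -- the integer
  have hιT : ι T = ∑ s ∈ S, (w s : ℂ) * aeval (ι s) g := by
    rw [hT, map_sum]
    refine Finset.sum_congr rfl (fun s _ => ?_)
    rw [map_mul, map_intCast]
    congr 1
    rw [aeval_def, aeval_def, hom_eval₂]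
    congr 1
    exact RingHom.ext_int _ _
  have hι : (z : ℂ) = (a : ℂ) ^ (p * D) * ι T := by
    have := congrArg ι hz
    rw [map_mul, map_pow, map_intCast, map_intCast] at this
    exact this
  set W : ℤ := a ^ (p * D) * (n * w0) + p * z with hW
  have hWne : W ≠ 0 := by
    intro h
    have hdvd : (p : ℤ) ∣ a ^ (p * D) * (n * w0) := by
      have : a ^ (p * D) * (n * w0) = - (p * z) := by
        rw [hW] at h
        linarith
      rw [this]
      exact (dvd_mul_right _ _).neg_right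
    have hpr : Prime (p : ℤ) := Nat.prime_iff_prime_int.1 hp
    have hsmallp : ∀ x : ℤ, x ≠ 0 → x.natAbs < p → ¬ (p : ℤ) ∣ x := by
      intro x hx hlt hd
      have h1 : p ∣ x.natAbs := Int.natCast_dvd.1 hd
      exact absurd (Nat.le_of_dvd (Int.natAbs_pos.2 hx) h1) (by omega)
    rcases hpr.dvd_or_dvd hdvd with h1 | h1
    · exact hsmallp a ha0 (by omega) (hpr.dvd_of_dvd_pow h1)
    · rcases hpr.dvd_or_dvd h1 with h2 | h2
      · exact hn h2
      · exact hsmallp w0 hw0 (by omega) h2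
  have hW1 : (1 : ℝ) ≤ ‖(W : ℂ)‖ := by
    rw [Complex.norm_intCast]
    exact_mod_cast Int.one_le_abs hWne
  have hWeq : (W : ℂ) = - ((a : ℂ) ^ (p * D) * ∑ s ∈ S, (w s : ℂ) *
      (n • Complex.exp (ι s) - p • aeval (ι s) g)) := by
    have h1 : ∑ s ∈ S, (w s : ℂ) * (n • Complex.exp (ι s) - p • aeval (ι s) g) =
        (n : ℂ) * ∑ s ∈ S, (w s : ℂ) * Complex.exp (ι s) - (p : ℂ) * ι T := by
      rw [hιT, Finset.mul_sum, Finset.mul_sum, ← Finset.sum_sub_distrib]
      refine Finset.sum_congr rfl (fun s _ => ?_)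
      rw [zsmul_eq_mul, nsmul_eq_mul]
      ring
    have h2 : ∑ s ∈ S, (w s : ℂ) * Complex.exp (ι s) = - (w0 : ℂ) := by
      linear_combination hsum
    rw [h1, h2, hW]
    push_cast
    rw [hι]
    ring
  have hWle : ‖(W : ℂ)‖ ≤ M * ((|(a : ℝ)| ^ D * |c|) ^ p / (p - 1)!) := by
    rw [hWeq, norm_neg, norm_mul, norm_pow, Complex.norm_intCast]
    have h1 : ‖∑ s ∈ S, (w s : ℂ) * (n • Complex.exp (ι s) - p • aeval (ι s) g)‖ ≤
        ∑ s ∈ S, |(w s : ℝ)| * (|c| ^ p / (p - 1)!) := by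
      refine (norm_sum_le _ _).trans (Finset.sum_le_sum fun s hs => ?_)
      rw [norm_mul, Complex.norm_intCast]
      refine mul_le_mul_of_nonneg_left ((happ (hroot s hs)).trans ?_) (abs_nonneg _)
      refine div_le_div_of_nonneg_right ?_ (by positivity)
      rw [← abs_pow]
      exact le_abs_self _
    rw [← Finset.sum_mul] at h1
    have h2 : |(a : ℝ)| ^ (p * D) * (M * (|c| ^ p / (p - 1)!)) =
        M * ((|(a : ℝ)| ^ D * |c|) ^ p / (p - 1)!) := by
      rw [mul_pow, ← pow_mul, mul_comm D p]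
      ring
    rw [← h2]
    exact mul_le_mul_of_nonneg_left h1 (by positivity)
  linarith

open AddMonoidAlgebra in
theorem hli : HliStmt := by
  classical
  intro β hβ hβa hγa
  set γ : ℂ := Complex.exp β with hγ
  set L : IntermediateField ℚ ℂ := IntermediateField.adjoin ℚ {β, γ} with hL
  have hfd : FiniteDimensional ℚ L := by
    refine IntermediateField.finiteDimensional_adjoin (fun x hx => ?_)
    rcases hx with rfl | hx
    · exact hβa.isIntegral
    · rw [Set.mem_singleton_iff] at hx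
      rw [hx]
      exact hγa.isIntegral
  set K : IntermediateField ℚ ℂ := IntermediateField.normalClosure ℚ L ℂ with hK
  have hLK : L ≤ K := IntermediateField.le_normalClosure L
  have hβL : β ∈ L := IntermediateField.subset_adjoin ℚ _ (by simp)
  have hγL : γ ∈ L := IntermediateField.subset_adjoin ℚ _ (by simp)
  have hfdK : FiniteDimensional ℚ K := inferInstance
  have halgL : Algebra.IsAlgebraic ℚ L := Algebra.IsAlgebraic.of_finite ℚ L
  have hnc : IsNormalClosure ℚ L K :=
    Algebra.IsAlgebraic.isNormalClosure_normalClosure (fun x => IsAlgClosed.splits _)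
  have hno : Normal ℚ K := hnc.normal
  have hgal : IsGalois ℚ K := ⟨⟩
  set b : K := ⟨β, hLK hβL⟩ with hb
  set g : K := ⟨γ, hLK hγL⟩ with hg
  set ι : K →+* ℂ := (K.val : K →+* ℂ) with hι
  have hb0 : b ≠ 0 := by
    intro h
    apply hβ
    have := congrArg ι h
    rw [map_zero] at this
    exact this
  -- the minimal polynomial
  obtain ⟨m, hm0, hm⟩ : ∃ m : ℤ[X], m ≠ 0 ∧ aeval γ m = 0 :=
    (IsFractionRing.isAlgebraic_iff ℤ ℚ ℂ).2 hγa
  -- the group algebra
  let e : Multiplicative K →* ℂ :=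
    { toFun := fun s => Complex.exp (ι s.toAdd)
      map_one' := by simp
      map_mul' := fun s t => by
        rw [toAdd_mul, map_add, Complex.exp_add] }
  let Ev : AddMonoidAlgebra ℤ K →ₐ[ℤ] ℂ := AddMonoidAlgebra.lift ℤ ℂ K e
  let Mσ : Gal(K/ℚ) → AddMonoidAlgebra ℤ K := fun σ => aeval (single (σ b) (1 : ℤ)) m
  have hEv1 : Ev (Mσ 1) = 0 := by
    show Ev (aeval (single b (1 : ℤ)) m) = 0
    rw [← aeval_algHom_apply]
    have h1 : Ev (single b (1 : ℤ)) = γ := by
      show AddMonoidAlgebra.lift ℤ ℂ K e (single b (1 : ℤ)) = γ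
      rw [AddMonoidAlgebra.lift_single]
      simp [e, hγ, hι, hb]
    rw [h1, hm]
  -- the action
  let act : Gal(K/ℚ) → AddMonoidAlgebra ℤ K →+* AddMonoidAlgebra ℤ K := fun σ =>
    AddMonoidAlgebra.mapDomainRingHom ℤ (σ : K →+ K)
  have hact : ∀ (σ : Gal(K/ℚ)) (s : K) (x : ℤ), act σ (single s x) = single (σ s) x := by
    intro σ s x
    show AddMonoidAlgebra.mapDomain (σ : K →+ K) (single s x) = _
    rw [AddMonoidAlgebra.mapDomain_single]
    rfl
  have hactM : ∀ σ τ : Gal(K/ℚ), act τ (Mσ σ) = Mσ (τ * σ) := by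
    intro σ τ
    show act τ (aeval (single (σ b) (1 : ℤ)) m) = aeval (single ((τ * σ) b) (1 : ℤ)) m
    have h1 : act τ (aeval (single (σ b) (1 : ℤ)) m) = aeval (act τ (single (σ b) (1 : ℤ))) m := by
      rw [aeval_def, aeval_def, hom_eval₂]
      congr 1
      exact RingHom.ext_int _ _
    rw [h1, hact]
    rfl
  have hMne : ∀ σ, Mσ σ ≠ 0 := by
    intro σ h
    have hs0 : σ b ≠ 0 := fun h0 => hb0 ((map_eq_zero_iff σ σ.injective).1 h0)
    have h1 : (Mσ σ).coeff (m.natDegree • σ b) = m.leadingCoeff := by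
      show (aeval (single (σ b) (1 : ℤ)) m).coeff (m.natDegree • σ b) = m.leadingCoeff
      rw [aeval_eq_sum_range, AddMonoidAlgebra.coeff_sum, Finsupp.finsetSum_apply]
      rw [Finset.sum_eq_single m.natDegree]
      · rw [AddMonoidAlgebra.single_pow]
        simp
      · intro k hk hne
        rw [AddMonoidAlgebra.single_pow, AddMonoidAlgebra.coeff_smul_apply]
        have h2 : (single (k • σ b) ((1 : ℤ) ^ k) : AddMonoidAlgebra ℤ K).coeff
            (m.natDegree • σ b) = 0 := by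
          rw [AddMonoidAlgebra.coeff_single, Finsupp.single_apply_eq_zero]
          intro h3
          exfalso
          apply hne
          have h4 : ((m.natDegree : ℕ) : K) * σ b = (k : K) * σ b := by
            rw [← nsmul_eq_mul, ← nsmul_eq_mul]
            exact h3
          have h5 := mul_right_cancel₀ hs0 h4
          exact_mod_cast h5.symm
        rw [h2, smul_zero]
      · intro h2
        exact absurd (Finset.mem_range.2 (Nat.lt_succ_self _)) h2
    rw [h] at h1
    rw [AddMonoidAlgebra.coeff_zero, Finsupp.zero_apply] at h1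
    exact hm0 (leadingCoeff_eq_zero.1 h1.symm)
  set F : AddMonoidAlgebra ℤ K := ∏ σ : Gal(K/ℚ), Mσ σ with hF
  have hFne : F ≠ 0 := Finset.prod_ne_zero_iff.2 (fun σ _ => hMne σ)
  have hFE : Ev F = 0 := by
    rw [hF, map_prod]
    exact Finset.prod_eq_zero (Finset.mem_univ 1) hEv1
  have hFact : ∀ τ, act τ F = F := by
    intro τ
    rw [hF, map_prod]
    simp_rw [hactM]
    exact Equiv.prod_comp (Equiv.mulLeft τ) Mσ
  -- the opposite
  let ng : AddMonoidAlgebra ℤ K →+* AddMonoidAlgebra ℤ K :=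
    AddMonoidAlgebra.mapDomainRingHom ℤ (-(AddMonoidHom.id K))
  set P : AddMonoidAlgebra ℤ K := F * ng F with hP
  have hPE : Ev P = 0 := by
    rw [hP, map_mul, hFE, zero_mul]
  have hPact : ∀ τ, act τ P = P := by
    intro τ
    rw [hP, map_mul, hFact]
    congr 1
    have h1 : act τ (ng F) = ng (act τ F) := by
      show AddMonoidAlgebra.mapDomain (τ : K →+ K) (AddMonoidAlgebra.mapDomain
        (-(AddMonoidHom.id K)) F) = AddMonoidAlgebra.mapDomain (-(AddMonoidHom.id K))
        (AddMonoidAlgebra.mapDomain (τ : K →+ K) F)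
      apply AddMonoidAlgebra.coeff_injective
      show Finsupp.mapDomain (τ : K →+ K) (Finsupp.mapDomain (-(AddMonoidHom.id K)) F.coeff) =
        Finsupp.mapDomain (-(AddMonoidHom.id K)) (Finsupp.mapDomain (τ : K →+ K) F.coeff)
      rw [← Finsupp.mapDomain_comp, ← Finsupp.mapDomain_comp]
      congr 1
      funext s
      simp
    rw [h1, hFact]
  have hngc : ∀ t : K, (ng F).coeff t = F.coeff (-t) := by
    intro t
    have hinj : Function.Injective (-(AddMonoidHom.id K)) := fun x y h => by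
      have h' : -x = -y := h
      exact neg_injective h'
    have h1 := Finsupp.mapDomain_apply (f := (-(AddMonoidHom.id K))) hinj F.coeff (-t)
    have h2 : (-(AddMonoidHom.id K)) (-t) = t := by simp
    rw [h2] at h1
    exact h1
  have hP0 : P.coeff 0 ≠ 0 := by
    have h1 : P.coeff 0 = ∑ s ∈ F.coeff.support, F.coeff s * F.coeff s := by
      rw [hP, AddMonoidAlgebra.coeff_mul, Finsupp.sum]
      refine Finset.sum_congr rfl (fun s hs => ?_)
      rw [Finsupp.sum, Finset.sum_eq_single (-s)]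
      · rw [if_pos (add_neg_cancel s), hngc, neg_neg]
      · intro t _ hne
        rw [if_neg]
        intro h2
        exact hne (eq_neg_of_add_eq_zero_right h2)
      · intro h2
        rw [Finsupp.notMem_support_iff] at h2
        rw [h2, mul_zero, ite_self]
    rw [h1]
    obtain ⟨s, hs⟩ : F.coeff.support.Nonempty := by
      rw [Finsupp.support_nonempty_iff]
      intro h2
      exact hFne (AddMonoidAlgebra.coeff_injective h2)
    have h2 : 0 < ∑ s ∈ F.coeff.support, F.coeff s * F.coeff s :=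
      Finset.sum_pos (fun s hs => mul_self_pos.2 (Finsupp.mem_support_iff.1 hs)) ⟨s, hs⟩
    exact h2.ne'
  have hPinv : ∀ (σ : Gal(K/ℚ)) (s : K), P.coeff (σ s) = P.coeff s := by
    intro σ s
    have h1 : (act σ P).coeff (σ s) = P.coeff s := by
      show (Finsupp.mapDomain (σ : K →+ K) P.coeff) (σ s) = P.coeff s
      exact Finsupp.mapDomain_apply (f := (σ : K →+ K)) σ.injective P.coeff s
    rw [hPact] at h1
    exact h1
  refine core K ι (P.coeff.support.erase 0) (fun s => P.coeff s) (P.coeff 0) hP0 (by simp) ?_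
    hPinv ?_
  · intro σ s hs
    rw [Finset.mem_erase, Finsupp.mem_support_iff] at hs ⊢
    refine ⟨fun h => hs.1 ((map_eq_zero_iff σ σ.injective).1 h), ?_⟩
    rw [hPinv]
    exact hs.2
  · have h1 : Ev P = ∑ s ∈ P.coeff.support, (P.coeff s : ℂ) * Complex.exp (ι s) := by
      show AddMonoidAlgebra.lift ℤ ℂ K e P = _
      rw [AddMonoidAlgebra.lift_apply, Finsupp.sum]
      refine Finset.sum_congr rfl (fun s _ => ?_)
      rw [zsmul_eq_mul]
      rfl
    have h2 : (0 : K) ∈ P.coeff.support := Finsupp.mem_support_iff.2 hP0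
    rw [← Finset.add_sum_erase _ _ h2] at h1
    rw [hPE] at h1
    have h3 : Complex.exp (ι 0) = 1 := by simp
    rw [h3, mul_one] at h1
    exact h1.symm

end

end Pool.Agent.BEB.H93
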