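import Pool.Agent.BEB.Stmts

/-!
# Squad BEB, row CFS: the coefficients of the spherical Bessel functions
-/

namespace Pool.Agent.BEB.H93

open Filter Topology Finset
open scoped Nat

noncomputable section

/-- The denominators. -/
def dn (l k : ℕ) : ℝ :=
  ∏ j ∈ range k, (2 * ((j : ℝ) + 1) * (2 * ((j : ℝ) + 1) + 2 * l + 1))

theorem dn_pos (l k : ℕ) : 0 < dn l k := Finset.prod_pos fun j _ => by positivity

theorem cf_eq (l k : ℕ) : cf l k = (-1) ^ k / dn l k := rfl

theorem cf_zero (l : ℕ) : cf l 0 = 1 := by simp [cf]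

theorem cf_succ (l k : ℕ) : 2 * ((k : ℝ) + 1) * (2 * ((k : ℝ) + 1) + 2 * l + 1) * cf l (k + 1) =
    - cf l k := by
  rw [cf_eq, cf_eq]
  have h : dn l (k + 1) = dn l k * (2 * ((k : ℝ) + 1) * (2 * ((k : ℝ) + 1) + 2 * l + 1)) := by
    unfold dn
    rw [prod_range_succ]
  have h1 := (dn_pos l k).ne'
  have h2 : (2 * ((k : ℝ) + 1) * (2 * ((k : ℝ) + 1) + 2 * l + 1)) ≠ 0 := by positivity
  rw [h, pow_succ]
  field_simp

theorem dn_ge (l k : ℕ) : (k ! : ℝ) ≤ dn l k := by
  induction k with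
  | zero => simp [dn]
  | succ k ih =>
    have h : dn l (k + 1) = dn l k * (2 * ((k : ℝ) + 1) * (2 * ((k : ℝ) + 1) + 2 * l + 1)) := by
      unfold dn
      rw [prod_range_succ]
    rw [h, Nat.factorial_succ]
    push_cast
    have h1 : (0 : ℝ) ≤ l := Nat.cast_nonneg l
    have h2 : (0 : ℝ) ≤ k := Nat.cast_nonneg k
    have h3 : (1 : ℝ) ≤ 2 * (2 * ((k : ℝ) + 1) + 2 * l + 1) := by nlinarith
    have h4 : (k : ℝ) + 1 ≤ 2 * ((k : ℝ) + 1) * (2 * ((k : ℝ) + 1) + 2 * l + 1) := by nlinarith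
    calc ((k : ℝ) + 1) * (k ! : ℝ) ≤ (2 * ((k : ℝ) + 1) * (2 * ((k : ℝ) + 1) + 2 * l + 1)) * dn l k :=
          mul_le_mul h4 ih (Nat.cast_nonneg _) (by positivity)
      _ = _ := by ring

theorem cf_summable (l : ℕ) (x : ℝ) : Summable fun k : ℕ => |cf l k| * |x| ^ (2 * k) := by
  refine Summable.of_nonneg_of_le (fun k => by positivity) (fun k => ?_)
    (Real.summable_pow_div_factorial (|x| ^ 2))
  rw [cf_eq, abs_div, abs_pow, abs_neg, abs_one, one_pow, abs_of_pos (dn_pos l k), pow_mul]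
  rw [one_div_mul_eq_div]
  exact div_le_div_of_nonneg_left (by positivity) (by positivity) (dn_ge l k)

theorem cf_summable' (l : ℕ) (x : ℝ) : Summable fun k : ℕ => cf l k * x ^ (2 * k) := by
  refine Summable.of_norm ?_
  refine (cf_summable l x).congr (fun k => ?_)
  rw [Real.norm_eq_abs, abs_mul, abs_pow]

theorem cfs : CfsStmt := by
  intro l
  refine ⟨cf_summable l, cf_zero l, cf_succ l, fun x => ?_, fun x => ?_⟩
  · have h := (cf_summable' l x).hasSum.tendsto_sum_nat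
    exact (tendsto_add_atTop_iff_nat 1).2 h
  · exact (cf_summable' l x).tendsto_atTop_zero

end

end Pool.Agent.BEB.H93
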