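import Pool.Agent.Helper93_BEB.CFS
import Pool.Agent.Helper93_BEB.HLI

/-!
# Squad BEB, row ARI: the zero of `h_1` has no resonance
-/

namespace Pool.Agent.BEB.H93

open Filter Topology Finset Polynomial
open scoped Nat

noncomputable section

/-- The reverse Bessel polynomials. -/
def th : ℕ → ℤ[X]
  | 0 => 1
  | 1 => X + 1
  | (l + 2) => C (2 * (l : ℤ) + 3) * th (l + 1) + X ^ 2 * th l

theorem th_zero : th 0 = 1 := by rw [th]

theorem th_one : th 1 = X + 1 := by rw [th]

theorem th_succ (l : ℕ) : th (l + 2) = C (2 * (l : ℤ) + 3) * th (l + 1) + X ^ 2 * th l := by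
  rw [th]

theorem th_der (l : ℕ) : derivative (th (l + 1)) = th (l + 1) - X * th l := by
  induction l using Nat.strong_induction_on with
  | _ l ih =>
    match l with
    | 0 => rw [zero_add, th_one, th_zero]; simp
    | 1 =>
      rw [show (1 : ℕ) + 1 = 0 + 2 from rfl, th_succ, th_one, th_zero]
      simp only [derivative_add, derivative_mul, derivative_C, derivative_X, derivative_one,
        derivative_X_pow]
      simp only [Nat.cast_zero, mul_zero, zero_add, Nat.cast_ofNat, map_ofNat, pow_one]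
      ring
    | (m + 2) =>
      have h1 := ih (m + 1) (by omega)
      have h0 := ih m (by omega)
      rw [show m + 2 + 1 = (m + 1) + 2 from rfl, th_succ (m + 1)]
      have e1 : th (m + 1 + 1) = C (2 * (m : ℤ) + 3) * th (m + 1) + X ^ 2 * th m := th_succ m
      simp only [derivative_add, derivative_mul, derivative_C, derivative_X_pow, h1, h0]
      rw [show m + 2 = m + 1 + 1 from rfl, e1]
      simp only [Nat.cast_add, Nat.cast_one, Nat.cast_ofNat, map_add, map_mul, map_ofNat,
        map_one, map_natCast, Nat.add_one_sub_one, pow_one]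
      ring

theorem th_not (z : ℤ) (hz : z ≠ 0) (l : ℕ) : ¬ ((th (l + 1)).eval z = 0 ∧ (th l).eval z = 0) := by
  induction l with
  | zero =>
    rintro ⟨_, h⟩
    rw [th_zero] at h
    simp at h
  | succ l ih =>
    rintro ⟨h1, h2⟩
    apply ih
    refine ⟨h2, ?_⟩
    rw [show l + 1 + 1 = l + 2 from rfl, th_succ] at h1
    simp only [eval_add, eval_mul, eval_C, eval_pow, eval_X, h2, mul_zero, zero_add] at h1
    rcases mul_eq_zero.1 h1 with h | h
    · exact absurd (pow_eq_zero_iff (by norm_num) |>.1 h) hz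
    · exact h

theorem th_double (z : ℤ) (hz : z ≠ 0) (l : ℕ) (h : (th l).eval z = 0)
    (h' : (derivative (th l)).eval z = 0) : False := by
  match l with
  | 0 => rw [th_zero] at h; simp at h
  | (l + 1) =>
    rw [th_der] at h'
    simp only [eval_sub, eval_mul, eval_X, h, zero_sub, neg_eq_zero] at h'
    rcases mul_eq_zero.1 h' with h1 | h1
    · exact hz h1
    · exact th_not z hz l ⟨h, h1⟩

theorem th_neg_one (l : ℕ) : 0 < (th (l + 2)).eval (-1) ∧ 0 ≤ (th (l + 1)).eval (-1) := by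
  induction l with
  | zero =>
    constructor
    · rw [th_succ, zero_add, th_one, th_zero]
      simp
    · rw [zero_add, th_one]
      simp
  | succ l ih =>
    refine ⟨?_, ih.1.le⟩
    rw [th_succ (l + 1)]
    simp only [eval_add, eval_mul, eval_C, eval_pow, eval_X]
    have h1 := ih.1
    have h2 := ih.2
    have h3 : (0 : ℤ) < 2 * ((l + 1 : ℕ) : ℤ) + 3 := by positivity
    rw [show l + 1 + 1 = l + 2 from rfl]
    have h4 := mul_pos h3 h1
    linarith

/-! ## Identities between the `h_l` -/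

theorem cf_r1 (l k : ℕ) : cf l k * (2 * l + 3) = cf (l + 1) k * (2 * k + 2 * l + 3) := by
  induction k with
  | zero => rw [cf_zero, cf_zero]; push_cast; ring
  | succ k ih =>
    have h1 := cf_succ l k
    have h2 := cf_succ (l + 1) k
    push_cast at h1 h2 ih ⊢
    have hk : (0 : ℝ) ≤ k := Nat.cast_nonneg k
    have hl : (0 : ℝ) ≤ l := Nat.cast_nonneg l
    have h3 : (2 * ((k : ℝ) + 1) * (2 * ((k : ℝ) + 1) + 2 * l + 1)) ≠ 0 := by positivity
    apply mul_left_cancel₀ h3
    have e1 : 2 * ((k : ℝ) + 1) * (2 * ((k : ℝ) + 1) + 2 * l + 1) * (cf l (k + 1) * (2 * l + 3)) =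
        - cf l k * (2 * l + 3) := by rw [← h1]; ring
    have e2 : 2 * ((k : ℝ) + 1) * (2 * ((k : ℝ) + 1) + 2 * l + 1) *
        (cf (l + 1) (k + 1) * (2 * (k + 1) + 2 * l + 3)) =
        - cf (l + 1) k * (2 * ((k : ℝ) + 1) + 2 * l + 1) := by
      rw [← h2]; ring
    rw [e1, e2]
    linear_combination - ih

theorem cf_r2 (l k : ℕ) : (cf l (k + 1) - cf (l + 1) (k + 1)) * ((2 * l + 3) * (2 * l + 5)) =
    - cf (l + 2) k := by
  have h1 := cf_r1 l (k + 1)
  have h2 := cf_r1 (l + 1) k
  have h3 := cf_succ (l + 1) k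
  push_cast at h1 h2 h3
  have hk : (0 : ℝ) ≤ k := Nat.cast_nonneg k
  have hl : (0 : ℝ) ≤ l := Nat.cast_nonneg l
  have h4 : (2 * (k : ℝ) + 2 * l + 5) ≠ 0 := by positivity
  apply mul_left_cancel₀ h4
  rw [show l + 2 = l + 1 + 1 from rfl]
  linear_combination (2 * (k : ℝ) + 2 * l + 5) * (2 * l + 5) * h1 + (2 * (l : ℝ) + 5) * h3 - h2

theorem hs_rec (l : ℕ) (x : ℝ) :
    (hs l x - hs (l + 1) x) * ((2 * l + 3) * (2 * l + 5)) = - (x ^ 2 * hs (l + 2) x) := by
  have h1 := (cf_summable' l x).tsum_eq_zero_add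
  have h2 := (cf_summable' (l + 1) x).tsum_eq_zero_add
  have s1 := (summable_nat_add_iff 1).2 (cf_summable' l x)
  have s2 := (summable_nat_add_iff 1).2 (cf_summable' (l + 1) x)
  have e : hs l x - hs (l + 1) x = ∑' k : ℕ, (cf l (k + 1) - cf (l + 1) (k + 1)) *
      x ^ (2 * (k + 1)) := by
    unfold hs
    rw [h1, h2, cf_zero, cf_zero]
    have := s1.tsum_sub s2
    rw [add_sub_add_left_eq_sub, ← this]
    refine tsum_congr (fun k => ?_)
    ring
  rw [e, ← tsum_mul_right]
  unfold hs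
  rw [← tsum_mul_left, ← tsum_neg]
  refine tsum_congr (fun k => ?_)
  have := cf_r2 l k
  rw [show (2 * (k + 1) : ℕ) = 2 * k + 2 by ring, pow_add]
  linear_combination (x ^ (2 * k) * x ^ 2) * this

theorem cf_zero_eq (k : ℕ) : cf 0 k * ((2 * k + 1)! : ℝ) = (-1) ^ k := by
  induction k with
  | zero => simp [cf_zero]
  | succ k ih =>
    have h1 := cf_succ 0 k
    have h2 : ((2 * (k + 1) + 1)! : ℝ) = (2 * k + 3) * (2 * k + 2) * ((2 * k + 1)! : ℝ) := by
      rw [show 2 * (k + 1) + 1 = (2 * k + 1) + 1 + 1 by ring, Nat.factorial_succ,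
        Nat.factorial_succ]
      push_cast
      ring
    rw [h2, pow_succ]
    push_cast at h1
    linear_combination ((2 * k + 1)! : ℝ) * h1 - ih

theorem hs_sin (x : ℝ) : x * hs 0 x = Real.sin x := by
  have h1 := (Real.hasSum_sin x).tsum_eq
  rw [← h1]
  unfold hs
  rw [← tsum_mul_left]
  refine tsum_congr (fun k => ?_)
  have h2 := cf_zero_eq k
  have h3 : ((2 * k + 1)! : ℝ) ≠ 0 := by positivity
  rw [eq_div_iff h3, ← h2]
  ring

theorem hs_one (x : ℝ) : x ^ 2 * hs 1 x = 3 * (hs 0 x - Real.cos x) := by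
  have h1 := (Real.hasSum_cos x)
  have h2 := h1.summable.tsum_eq_zero_add
  rw [h1.tsum_eq] at h2
  have h3 := (cf_summable' 0 x).tsum_eq_zero_add
  have s1 := (summable_nat_add_iff 1).2 (cf_summable' 0 x)
  have s2 := (summable_nat_add_iff 1).2 h1.summable
  have e : hs 0 x - Real.cos x = ∑' k : ℕ, (cf 0 (k + 1) * x ^ (2 * (k + 1)) -
      (-1) ^ (k + 1) * x ^ (2 * (k + 1)) / ((2 * (k + 1))! : ℝ)) := by
    rw [s1.tsum_sub s2, h2]
    unfold hs
    rw [h3, cf_zero]
    simp
  rw [e, ← tsum_mul_left]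
  unfold hs
  rw [← tsum_mul_left]
  refine tsum_congr (fun k => ?_)
  have h4 := cf_r1 0 k
  have h5 := cf_zero_eq k
  have h6 := cf_zero_eq (k + 1)
  have f1 : ((2 * (k + 1) + 1)! : ℝ) = (2 * k + 3) * (2 * k + 2) * ((2 * k + 1)! : ℝ) := by
    rw [show 2 * (k + 1) + 1 = (2 * k + 1) + 1 + 1 by ring, Nat.factorial_succ,
      Nat.factorial_succ]
    push_cast
    ring
  have f2 : ((2 * (k + 1))! : ℝ) = (2 * k + 2) * ((2 * k + 1)! : ℝ) := by
    rw [show 2 * (k + 1) = (2 * k + 1) + 1 by ring, Nat.factorial_succ]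
    push_cast
    ring
  rw [f1] at h6
  rw [f2]
  have hF : ((2 * k + 1)! : ℝ) ≠ 0 := by positivity
  set F : ℝ := ((2 * k + 1)! : ℝ) with hFd
  have hk : (0 : ℝ) ≤ k := Nat.cast_nonneg k
  have n1 : (2 * (k : ℝ) + 3) ≠ 0 := by positivity
  have n2 : (2 * (k : ℝ) + 2) ≠ 0 := by positivity
  have c1 : cf 1 k = 3 * (-1) ^ k / ((2 * k + 3) * F) := by
    rw [eq_div_iff (by positivity)]
    push_cast at h4
    have : cf 1 k * (2 * k + 3) = cf 0 k * 3 := by linear_combination - h4
    linear_combination F * this + 3 * h5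
  have c2 : cf 0 (k + 1) = (-1) ^ (k + 1) / ((2 * k + 3) * (2 * k + 2) * F) := by
    rw [eq_div_iff (by positivity)]
    exact h6
  rw [c1, c2, show (2 * (k + 1) : ℕ) = 2 * k + 2 by ring, pow_add x (2 * k) 2, pow_succ (-1 : ℝ) k]
  field_simp
  ring

/-! ## The complex form -/

/-- `(2l+1)!!`. -/
def dd : ℕ → ℝ
  | 0 => 1
  | (l + 1) => (2 * l + 3) * dd l

theorem dd_pos (l : ℕ) : 0 < dd l := by
  induction l with
  | zero => simp [dd]
  | succ l ih => rw [dd]; positivity

open Complex in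
/-- The value of `θ_l`. -/
def tv (l : ℕ) (z : ℂ) : ℂ := aeval z (th l)

theorem tv_succ (l : ℕ) (z : ℂ) :
    tv (l + 2) z = (2 * l + 3) * tv (l + 1) z + z ^ 2 * tv l z := by
  unfold tv
  rw [th_succ]
  simp only [map_add, map_mul, aeval_C, aeval_X, map_pow]
  congr 2

theorem hs_cplx (l : ℕ) (x : ℝ) :
    (dd l : ℂ) * (Complex.exp (x * Complex.I) * tv l (-(x * Complex.I)) -
      Complex.exp (-(x * Complex.I)) * tv l (x * Complex.I)) =
    2 * Complex.I * (x : ℂ) ^ (2 * l + 1) * (hs l x : ℂ) := by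
  induction l using Nat.strong_induction_on with
  | _ l ih =>
    have hcs : Complex.exp (x * Complex.I) = Complex.cos x + Complex.sin x * Complex.I :=
      Complex.exp_mul_I x
    have hcs' : Complex.exp (-(x * Complex.I)) = Complex.cos x - Complex.sin x * Complex.I := by
      rw [← neg_mul, Complex.exp_mul_I, Complex.cos_neg, Complex.sin_neg]
      ring
    have hI : Complex.I ^ 2 = -1 := Complex.I_sq
    match l with
    | 0 =>
      have h0 : tv 0 = fun _ => 1 := by
        funext z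
        simp [tv, th_zero]
      have h1 := congrArg (fun y : ℝ => (y : ℂ)) (hs_sin x)
      simp only [Complex.ofReal_mul, Complex.ofReal_sin] at h1
      rw [h0, hcs, hcs', dd]
      push_cast
      linear_combination (-2 * Complex.I) * h1
    | 1 =>
      have h0 : tv 1 = fun z => z + 1 := by
        funext z
        simp [tv, th_one]
      have h1 := congrArg (fun y : ℝ => (y : ℂ)) (hs_sin x)
      have h2 := congrArg (fun y : ℝ => (y : ℂ)) (hs_one x)
      simp only [Complex.ofReal_mul, Complex.ofReal_sin, Complex.ofReal_pow, Complex.ofReal_sub,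
        Complex.ofReal_cos, Complex.ofReal_ofNat] at h1 h2
      rw [h0, hcs, hcs', dd, dd]
      push_cast
      linear_combination (-6 * Complex.I) * h1 - (2 * Complex.I * x) * h2
    | (m + 2) =>
      have e0 := ih m (by omega)
      have e1 := ih (m + 1) (by omega)
      have e2 := congrArg (fun y : ℝ => (y : ℂ)) (hs_rec m x)
      simp only [Complex.ofReal_mul, Complex.ofReal_pow, Complex.ofReal_sub, Complex.ofReal_neg,
        Complex.ofReal_add, Complex.ofReal_ofNat, Complex.ofReal_natCast] at e2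
      rw [tv_succ, tv_succ]
      have d1 : dd (m + 2) = (2 * (m + 1) + 3) * ((2 * m + 3) * dd m) := by
        rw [dd, dd]
        push_cast
        ring
      have d2 : dd (m + 1) = (2 * m + 3) * dd m := by rw [dd]
      rw [d2] at e1
      rw [d1]
      push_cast at e1 ⊢
      have hp : (x : ℂ) ^ (2 * (m + 2) + 1) = x ^ (2 * m + 1) * x ^ 4 := by
        rw [← pow_add]
        ring_nf
      have hp1 : (x : ℂ) ^ (2 * (m + 1) + 1) = x ^ (2 * m + 1) * x ^ 2 := by
        rw [← pow_add]
        ring_nf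
      rw [hp1] at e1
      rw [hp]
      have sq1 : (-(x * Complex.I)) ^ 2 = -(x : ℂ) ^ 2 := by
        rw [neg_sq, mul_pow, hI]
        ring
      have sq2 : ((x : ℂ) * Complex.I) ^ 2 = -(x : ℂ) ^ 2 := by
        rw [mul_pow, hI]
        ring
      rw [sq1, sq2]
      linear_combination (2 * (m : ℂ) + 5) * (2 * (m : ℂ) + 3) * e1 -
        (2 * (m : ℂ) + 5) * (2 * (m : ℂ) + 3) * x ^ 2 * e0 -
        (2 * Complex.I * x ^ (2 * m + 1) * x ^ 2) * e2

/-! ## Transcendence -/

/-- The polynomial `(1+X)^n θ_l(-nX) - (1-X)^n θ_l(nX)`. -/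
def Wp (n l : ℕ) : ℤ[X] :=
  (1 + X) ^ n * (th l).comp (C (-(n : ℤ)) * X) - (1 - X) ^ n * (th l).comp (C (n : ℤ) * X)

theorem Wp_ne (n l : ℕ) (hn : 2 ≤ n) : Wp n l ≠ 0 := by
  intro h
  have h1 := congrArg (fun P => eval 1 P) h
  have h2 := congrArg (fun P => eval 1 (derivative P)) h
  obtain ⟨k, rfl⟩ : ∃ k, n = k + 2 := ⟨n - 2, by omega⟩
  simp only [Wp, eval_sub, eval_mul, eval_pow, eval_add, eval_one, eval_X, eval_comp, eval_C,
    mul_one, sub_self, eval_zero, ne_eq, Nat.add_eq_zero_iff, OfNat.ofNat_ne_zero, and_false,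
    not_false_eq_true, zero_pow, zero_mul, sub_zero] at h1
  have h3 : eval (-((k + 2 : ℕ) : ℤ)) (th l) = 0 := by
    rcases mul_eq_zero.1 h1 with h4 | h4
    · exact absurd h4 (by positivity)
    · exact h4
  simp only [Wp, derivative_sub, derivative_mul, derivative_pow, derivative_add, derivative_one,
    derivative_X, derivative_comp, derivative_C, eval_sub, eval_mul, eval_pow, eval_add, eval_one,
    eval_X, eval_comp, eval_C, derivative_zero, eval_zero, mul_one, sub_self, h3, mul_zero,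
    zero_add, zero_mul, add_zero, zero_sub] at h2
  have h5 : eval (-((k + 2 : ℕ) : ℤ)) (derivative (th l)) = 0 := by
    have h6 : (0 : ℤ) ^ (k + 2) = 0 := by simp
    have h7 : (0 : ℤ) ^ (k + 2 - 1) = 0 := by simp
    rw [h6, h7] at h2
    simp only [mul_zero, zero_mul, neg_zero, sub_zero, add_zero] at h2
    rcases mul_eq_zero.1 h2 with h8 | h8
    · exact absurd h8 (by positivity)
    · rcases mul_eq_zero.1 h8 with h9 | h9
      · exfalso
        have : ((k + 2 : ℕ) : ℤ) ≠ 0 := by positivity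
        omega
      · exact h9
  exact th_double _ (by omega) l h3 h5

theorem Wp_one_ne (l : ℕ) (hl : l ≠ 1) : Wp 1 l ≠ 0 := by
  intro h
  have h1 := congrArg (fun P => eval 1 P) h
  simp only [Wp, eval_sub, eval_mul, eval_pow, eval_add, eval_one, eval_X, eval_comp, eval_C,
    mul_one, sub_self, eval_zero, pow_one, zero_mul, sub_zero, Nat.cast_one] at h1
  have h3 : eval (-1) (th l) = 0 := by linarith
  match l with
  | 0 => rw [th_zero] at h3; simp at h3
  | 1 => exact hl rfl
  | (m + 2) => exact absurd h3 (th_neg_one m).1.ne'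

theorem ari : AriStmt := by
  -- the zero
  obtain ⟨x0, hx0, hx⟩ : ∃ x : ℝ, 0 < x ∧ Real.sin x = x * Real.cos x := by
    have hc : ContinuousOn (fun x : ℝ => Real.sin x - x * Real.cos x)
        (Set.Icc Real.pi (Real.pi + Real.pi / 2)) :=
      (Real.continuous_sin.sub (continuous_id.mul Real.continuous_cos)).continuousOn
    have hpi := Real.pi_pos
    have h1 := intermediate_value_Icc' (by linarith) hc
    have h2 : (0 : ℝ) ∈ Set.Icc ((fun x : ℝ => Real.sin x - x * Real.cos x)
        (Real.pi + Real.pi / 2)) ((fun x : ℝ => Real.sin x - x * Real.cos x) Real.pi) := by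
      constructor
      · show Real.sin (Real.pi + Real.pi / 2) - (Real.pi + Real.pi / 2) *
          Real.cos (Real.pi + Real.pi / 2) ≤ 0
        rw [Real.sin_add, Real.cos_add]
        simp
      · show 0 ≤ Real.sin Real.pi - Real.pi * Real.cos Real.pi
        simp [hpi.le]
    obtain ⟨x, hx, hx2⟩ := h1 h2
    exact ⟨x, by linarith [hx.1], by linarith [hx2]⟩
  have hcos : Real.cos x0 ≠ 0 := by
    intro h
    rw [h, mul_zero] at hx
    have := Real.sin_sq_add_cos_sq x0
    rw [h, hx] at this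
    norm_num at this
  set s0 : ℂ := x0 * Complex.I with hs0
  have hs0ne : s0 ≠ 0 := mul_ne_zero (by exact_mod_cast hx0.ne') Complex.I_ne_zero
  have hxc : (Complex.sin x0 : ℂ) = x0 * Complex.cos x0 := by
    have := congrArg (fun y : ℝ => (y : ℂ)) hx
    simpa using this
  have hcosc : (Complex.cos x0 : ℂ) ≠ 0 := by
    rw [← Complex.ofReal_cos]
    exact_mod_cast hcos
  have hexp : Complex.exp s0 = Complex.cos x0 * (1 + s0) := by
    rw [hs0, Complex.exp_mul_I, hxc]
    ring
  have hexp' : Complex.exp (-s0) = Complex.cos x0 * (1 - s0) := by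
    rw [hs0, ← neg_mul, Complex.exp_mul_I, Complex.cos_neg, Complex.sin_neg, hxc]
    ring
  have h1s : 1 - s0 ≠ 0 := by
    intro h
    have := Complex.exp_ne_zero (-s0)
    rw [hexp', h, mul_zero] at this
    exact this rfl
  have htr : ¬ IsAlgebraic ℤ s0 := by
    intro h
    have hQ : IsAlgebraic ℚ s0 := (IsFractionRing.isAlgebraic_iff ℤ ℚ ℂ).1 h
    have h1 : IsAlgebraic ℚ (1 : ℂ) := isAlgebraic_one
    have h2 : IsAlgebraic ℚ (2 * s0) := by
      rw [two_mul]
      exact hQ.add hQ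
    apply hli (2 * s0) (mul_ne_zero two_ne_zero hs0ne) h2
    have h3 : Complex.exp (2 * s0) = (1 + s0) * (1 - s0)⁻¹ := by
      have h4 : Complex.exp (2 * s0) = Complex.exp s0 * (Complex.exp (-s0))⁻¹ := by
        rw [Complex.exp_neg, inv_inv, ← Complex.exp_add]
        ring_nf
      rw [h4, hexp, hexp']
      field_simp
    rw [h3]
    exact (h1.add hQ).mul (h1.sub hQ).inv
  -- the key
  have key : ∀ n l : ℕ, Wp n l ≠ 0 → 1 ≤ n → hs l (n * x0) ≠ 0 := by
    intro n l hW hn h
    apply htr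
    refine ⟨Wp n l, hW, ?_⟩
    have h1 := hs_cplx l (n * x0)
    rw [h, Complex.ofReal_zero, mul_zero] at h1
    have hdd : (dd l : ℂ) ≠ 0 := by exact_mod_cast (dd_pos l).ne'
    have h2 := (mul_eq_zero.1 h1).resolve_left hdd
    have e1 : (((n * x0 : ℝ) : ℂ) * Complex.I) = n * s0 := by
      rw [hs0]
      push_cast
      ring
    rw [e1] at h2
    have e2 : Complex.exp ((n : ℂ) * s0) = Complex.cos x0 ^ n * (1 + s0) ^ n := by
      rw [Complex.exp_nat_mul, hexp, mul_pow]
    have e3 : Complex.exp (-((n : ℂ) * s0)) = Complex.cos x0 ^ n * (1 - s0) ^ n := by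
      rw [← mul_neg, Complex.exp_nat_mul, hexp', mul_pow]
    rw [e2, e3] at h2
    have h3 : (1 + s0) ^ n * tv l (-((n : ℂ) * s0)) - (1 - s0) ^ n * tv l ((n : ℂ) * s0) = 0 := by
      have h4 : Complex.cos x0 ^ n * ((1 + s0) ^ n * tv l (-((n : ℂ) * s0)) -
          (1 - s0) ^ n * tv l ((n : ℂ) * s0)) = 0 := by linear_combination h2
      exact (mul_eq_zero.1 h4).resolve_left (pow_ne_zero _ hcosc)
    unfold Wp
    simp only [map_sub, map_mul, map_pow, map_add, map_one, aeval_X, aeval_comp, aeval_C]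
    have h5 : ((algebraMap ℤ ℂ) (-(n : ℤ))) * s0 = -((n : ℂ) * s0) := by simp
    have h6 : ((algebraMap ℤ ℂ) (n : ℤ)) * s0 = (n : ℂ) * s0 := by simp
    rw [h5, h6]
    exact h3
  refine ⟨x0, hx0, ?_, fun l hl => ?_, fun n l hn => key n l (Wp_ne n l hn) (by omega)⟩
  · have h1 := hs_one x0
    have h2 := hs_sin x0
    have h3 : x0 * (x0 ^ 2 * hs 1 x0) = 0 := by
      rw [h1]
      linear_combination 3 * h2 + 3 * hx
    rcases mul_eq_zero.1 h3 with h4 | h4
    · exact absurd h4 hx0.ne'
    · exact (mul_eq_zero.1 h4).resolve_left (by positivity)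
  · have := key 1 l (Wp_one_ne l hl) le_rfl
    simpa using this

end

end Pool.Agent.BEB.H93
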