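import Pool.Agent.BEB.Stmts

/-!
# Squad BEB, row PHI: the eigenfunction of the half ball
-/

namespace Pool.Agent.BEB.H93

open Set Filter Topology MeasureTheory
open scoped InnerProductSpace ENNReal
open Pool.Agent.BE01 Pool.Agent.BEB

noncomputable section

theorem hb_open (R : ℝ) : IsOpen (HB R) := by
  have h1 : IsOpen {x : En 3 | ‖x‖ < R} := isOpen_lt continuous_norm continuous_const
  have h2 : IsOpen {x : En 3 | 0 < x 2} :=
    isOpen_lt continuous_const (EuclideanSpace.proj (𝕜 := ℝ) (2 : Fin 3) : En 3 →L[ℝ] ℝ).continuous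
  exact h1.inter h2

theorem hb_bdd (R : ℝ) : Bornology.IsBounded (HB R) := by
  refine (Metric.isBounded_ball (x := (0 : En 3)) (r := R)).subset (fun x hx => ?_)
  rw [mem_ball_zero_iff]
  exact hx.1

/-- The point `(0, 0, ε)`. -/
def pt (ε : ℝ) : En 3 := EuclideanSpace.single 2 ε

theorem pt_norm {ε : ℝ} (h : 0 ≤ ε) : ‖pt ε‖ = ε := by
  rw [pt, PiLp.norm_single, Real.norm_eq_abs, abs_of_nonneg h]

theorem pt_two (ε : ℝ) : pt ε 2 = ε := by simp [pt]

theorem pt_mem {R ε : ℝ} (h : 0 < ε) (hR : ε < R) : pt ε ∈ HB R := by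
  refine ⟨?_, ?_⟩
  · rw [pt_norm h.le]; exact hR
  · rw [pt_two]; exact h

theorem hb_dom {R : ℝ} (h : 0 < R) : Dom (HB R) :=
  ⟨hb_open R, hb_bdd R, pt (R / 2), pt_mem (by linarith) (by linarith)⟩

instance hb_fin (R : ℝ) : IsFiniteMeasure (mu (HB R)) := by
  constructor
  rw [mu, Measure.restrict_apply_univ]
  exact (hb_bdd R).measure_lt_top

theorem hb_two_le {R : ℝ} {y : En 3} (hy : y ∈ HB R) : |y 2| ≤ R := by
  have h1 : ‖y 2‖ ≤ ‖y‖ := PiLp.norm_apply_le y 2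
  rw [Real.norm_eq_abs] at h1
  exact h1.trans hy.1.le

/-! ## Polynomials -/

theorem lap_add (P Q : Pl) : lap (P + Q) = lap P + lap Q := by
  unfold lap
  rw [← Finset.sum_add_distrib]
  refine Finset.sum_congr rfl (fun i _ => ?_)
  rw [map_add, map_add]

theorem lap_C_mul (c : ℝ) (P : Pl) : lap (MvPolynomial.C c * P) = MvPolynomial.C c * lap P := by
  unfold lap
  rw [Finset.mul_sum]
  refine Finset.sum_congr rfl (fun i _ => ?_)
  rw [MvPolynomial.pderiv_C_mul, MvPolynomial.pderiv_C_mul]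

theorem lap_zero : lap 0 = 0 := by
  unfold lap
  simp

theorem lap_sum {ι : Type} (s : Finset ι) (f : ι → Pl) : lap (∑ i ∈ s, f i) = ∑ i ∈ s, lap (f i) := by
  classical
  induction s using Finset.induction_on with
  | empty => rw [Finset.sum_empty, Finset.sum_empty, lap_zero]
  | insert a s ha ih => rw [Finset.sum_insert ha, Finset.sum_insert ha, lap_add, ih]

theorem X2_hom : (MvPolynomial.X 2 : Pl).IsHomogeneous 1 := MvPolynomial.isHomogeneous_X ℝ 2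

theorem lap_X2 : lap (MvPolynomial.X 2) = 0 := by
  unfold lap
  refine Finset.sum_eq_zero (fun i _ => ?_)
  rw [MvPolynomial.pderiv_X]
  by_cases h : (2 : Fin 3) = i
  · subst h
    simp
  · rw [Pi.single_eq_of_ne h, map_zero]

/-- `Σ_{k<N} a_k |y|^{2k} y₂`. -/
def pP (m : ℝ) (N : ℕ) : Pl :=
  ∑ k ∈ Finset.range N, MvPolynomial.C (cf 1 k * m ^ k) * (rho ^ k * MvPolynomial.X 2)

/-- `Σ_{k≤K} a_k (|y|^{2k} - R^{2k}) y₂`. -/
def qP (R m : ℝ) (K : ℕ) : Pl :=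
  pP m (K + 1) - MvPolynomial.C (∑ k ∈ Finset.range (K + 1), cf 1 k * m ^ k * R ^ (2 * k)) *
    MvPolynomial.X 2

theorem lap_pP (CFS : CfsStmt) (LPF : LpfStmt) (m : ℝ) (K : ℕ) :
    lap (pP m (K + 1)) = - (MvPolynomial.C m * pP m K) := by
  unfold pP
  rw [lap_sum, Finset.sum_range_succ', Finset.mul_sum, ← Finset.sum_neg_distrib]
  have h0 : lap (MvPolynomial.C (cf 1 0 * m ^ 0) * (rho ^ 0 * MvPolynomial.X 2)) = 0 := by
    rw [pow_zero rho, one_mul, lap_C_mul, lap_X2, mul_zero]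
  rw [h0, add_zero]
  refine Finset.sum_congr rfl (fun k _ => ?_)
  have h1 := (CFS 1).2.2.1 k
  have h2 : cf 1 (k + 1) * m ^ (k + 1) * (2 * ((k : ℝ) + 1) * (2 * ((k : ℝ) + 1) + 2 * (1 : ℕ) + 1)) =
      - (m * (cf 1 k * m ^ k)) := by
    rw [pow_succ]
    linear_combination (m ^ k * m) * h1
  rw [lap_C_mul, LPF 1 k _ X2_hom lap_X2, ← mul_assoc, ← MvPolynomial.C_mul, h2,
    MvPolynomial.C_neg, MvPolynomial.C_mul]
  ring

theorem lap_qP (CFS : CfsStmt) (LPF : LpfStmt) (R m : ℝ) (K : ℕ) :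
    lap (qP R m K) = - (MvPolynomial.C m * pP m K) := by
  have e : qP R m K = pP m (K + 1) + MvPolynomial.C (-(∑ k ∈ Finset.range (K + 1),
      cf 1 k * m ^ k * R ^ (2 * k))) * MvPolynomial.X 2 := by
    unfold qP
    rw [MvPolynomial.C_neg]
    ring
  rw [e, lap_add, lap_C_mul, lap_X2, mul_zero, add_zero, lap_pP CFS LPF]

/-- Partial sums of `h_1`. -/
def SS (N : ℕ) (z : ℝ) : ℝ := ∑ k ∈ Finset.range N, cf 1 k * z ^ (2 * k)

theorem ev_sum {ι : Type} (s : Finset ι) (f : ι → Pl) (y : En 3) :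
    ev (∑ i ∈ s, f i) y = ∑ i ∈ s, ev (f i) y := by
  unfold ev
  rw [map_sum]

theorem ev_pow (P : Pl) (k : ℕ) (y : En 3) : ev (P ^ k) y = ev P y ^ k := by
  unfold ev
  rw [map_pow]

theorem ev_pP (EVP : EvpStmt) (R x : ℝ) (N : ℕ) (y : En 3) :
    ev (pP ((x / R) ^ 2) N) y = y 2 * SS N (x * ‖y‖ / R) := by
  obtain ⟨_, _, _, hm, hC, hrho, hX, _⟩ := EVP
  unfold pP SS
  rw [ev_sum, Finset.mul_sum]
  refine Finset.sum_congr rfl (fun k _ => ?_)
  rw [hm, hC, hm, ev_pow, hrho, hX]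
  have : (x * ‖y‖ / R) ^ (2 * k) = ((x / R) ^ 2) ^ k * (‖y‖ ^ 2) ^ k := by
    rw [← pow_mul, ← pow_mul, ← mul_pow]
    congr 1
    ring
  rw [this]
  ring

theorem ev_qP (EVP : EvpStmt) {R x : ℝ} (hR : 0 < R) (K : ℕ) (y : En 3) :
    ev (qP R ((x / R) ^ 2) K) y = y 2 * (SS (K + 1) (x * ‖y‖ / R) - SS (K + 1) x) := by
  have hsub : ∀ P Q : Pl, ev (P - Q) y = ev P y - ev Q y := by
    intro P Q
    unfold ev
    rw [map_sub]
  unfold qP
  rw [hsub, ev_pP EVP R x]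
  obtain ⟨_, _, _, hm, hC, hrho, hX, _⟩ := EVP
  rw [hm, hC, hX]
  have : ∑ k ∈ Finset.range (K + 1), cf 1 k * ((x / R) ^ 2) ^ k * R ^ (2 * k) = SS (K + 1) x := by
    unfold SS
    refine Finset.sum_congr rfl (fun k _ => ?_)
    have h2 : ((x / R) ^ 2) ^ k * R ^ (2 * k) = x ^ (2 * k) := by
      rw [← pow_mul, ← mul_pow]
      congr 1
      field_simp
    rw [mul_assoc, h2]
  rw [this]
  ring

/-! ## Convergence in `L^2` -/

theorem ae_of_mem (R : ℝ) {p : En 3 → Prop} (h : ∀ y ∈ HB R, p y) : ∀ᵐ y ∂(mu (HB R)), p y := by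
  rw [mu, ae_restrict_iff' (hb_open R).measurableSet]
  exact Eventually.of_forall h

theorem memLp_of {R : ℝ} {g : En 3 → ℝ} (hg : AEStronglyMeasurable g (mu (HB R))) {C : ℝ}
    (hC : ∀ y ∈ HB R, |g y| ≤ C) : MemLp g 2 (mu (HB R)) :=
  MemLp.of_bound hg C (ae_of_mem R hC)

/-- Uniform convergence implies convergence in `L^2`. -/
theorem tendsto_lp {R : ℝ} (f : ℕ → Lp ℝ 2 (mu (HB R))) (g : Lp ℝ 2 (mu (HB R)))
    (F : ℕ → En 3 → ℝ) (F' : En 3 → ℝ) (hf : ∀ N, f N =ᵐ[mu (HB R)] F N)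
    (hg : g =ᵐ[mu (HB R)] F') (hu : TendstoUniformlyOn F F' atTop (HB R)) :
    Tendsto f atTop (𝓝 g) := by
  rw [Metric.tendsto_atTop]
  intro ε hε
  set M : ℝ := (measureUnivNNReal (mu (HB R)) : ℝ) ^ (2 : ℝ≥0∞).toReal⁻¹ with hM
  have hM0 : 0 ≤ M := by positivity
  have hδ : 0 < ε / (M + 1) := by positivity
  obtain ⟨N, hN⟩ := eventually_atTop.1 (Metric.tendstoUniformlyOn_iff.1 hu _ hδ)
  refine ⟨N, fun n hn => ?_⟩
  rw [dist_eq_norm]
  have h1 : ∀ᵐ y ∂(mu (HB R)), ‖(f n - g : Lp ℝ 2 (mu (HB R))) y‖ ≤ ε / (M + 1) := by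
    filter_upwards [hf n, hg, Lp.coeFn_sub (f n) g, ae_of_mem R (hN n hn)] with y h1 h2 h3 h4
    rw [h3, Pi.sub_apply, h1, h2, ← dist_eq_norm, dist_comm]
    exact h4.le
  have h2 := Lp.norm_le_of_ae_bound hδ.le h1
  refine lt_of_le_of_lt h2 ?_
  rw [← hM, mul_div_assoc', div_lt_iff₀ (by positivity)]
  nlinarith

theorem SS_unif (CFS : CfsStmt) (x : ℝ) (hx : 0 < x) :
    TendstoUniformlyOn (fun N z => SS N z) (hs 1) atTop (Icc 0 x) := by
  refine tendstoUniformlyOn_tsum_nat ((CFS 1).1 x) (fun k z hz => ?_)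
  rw [Real.norm_eq_abs, abs_mul, abs_pow]
  refine mul_le_mul_of_nonneg_left ?_ (abs_nonneg _)
  refine pow_le_pow_left₀ (abs_nonneg _) ?_ _
  rw [abs_of_nonneg hz.1, abs_of_pos hx]
  exact hz.2

theorem arg_mem {R x : ℝ} (hR : 0 < R) (hx : 0 < x) {y : En 3} (hy : y ∈ HB R) :
    x * ‖y‖ / R ∈ Icc 0 x := by
  refine ⟨by positivity, ?_⟩
  rw [div_le_iff₀ hR]
  exact mul_le_mul_of_nonneg_left hy.1.le hx.le

/-- The eigenfunction. -/
def FF (R x : ℝ) (y : En 3) : ℝ := y 2 * hs 1 (x * ‖y‖ / R)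

theorem unif_p (CFS : CfsStmt) (EVP : EvpStmt) {R x : ℝ} (hR : 0 < R) (hx : 0 < x) :
    TendstoUniformlyOn (fun N y => ev (pP ((x / R) ^ 2) N) y) (FF R x) atTop (HB R) := by
  rw [Metric.tendstoUniformlyOn_iff]
  intro ε hε
  filter_upwards [Metric.tendstoUniformlyOn_iff.1 (SS_unif CFS x hx) (ε / (R + 1))
    (by positivity)] with N hN y hy
  have h1 := hN _ (arg_mem hR hx hy)
  rw [Real.dist_eq] at h1 ⊢
  rw [ev_pP EVP R x, FF, ← mul_sub, abs_mul]
  have h2 := hb_two_le hy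
  calc |y 2| * |hs 1 (x * ‖y‖ / R) - SS N (x * ‖y‖ / R)|
      ≤ R * (ε / (R + 1)) := mul_le_mul h2 h1.le (abs_nonneg _) hR.le
    _ < ε := by
      rw [mul_div_assoc', div_lt_iff₀ (by positivity)]
      nlinarith

theorem unif_q (CFS : CfsStmt) (EVP : EvpStmt) {R x : ℝ} (hR : 0 < R) (hx : 0 < x)
    (h0 : hs 1 x = 0) :
    TendstoUniformlyOn (fun N y => ev (qP R ((x / R) ^ 2) N) y) (FF R x) atTop (HB R) := by
  rw [Metric.tendstoUniformlyOn_iff]
  intro ε hε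
  have h3 := Metric.tendstoUniformlyOn_iff.1 (SS_unif CFS x hx) (ε / (2 * (R + 1)))
    (by positivity)
  have h4 := (tendsto_add_atTop_nat 1).eventually h3
  filter_upwards [h4] with N hN y hy
  have h1 := hN _ (arg_mem hR hx hy)
  have h5 := hN x ⟨hx.le, le_rfl⟩
  rw [h0] at h5
  rw [Real.dist_eq] at h1 h5 ⊢
  rw [ev_qP EVP hR, FF, ← mul_sub, abs_mul]
  have h2 := hb_two_le hy
  have h6 : |hs 1 (x * ‖y‖ / R) - (SS (N + 1) (x * ‖y‖ / R) - SS (N + 1) x)| ≤ ε / (R + 1) := by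
    have e : hs 1 (x * ‖y‖ / R) - (SS (N + 1) (x * ‖y‖ / R) - SS (N + 1) x) =
        (hs 1 (x * ‖y‖ / R) - SS (N + 1) (x * ‖y‖ / R)) - (0 - SS (N + 1) x) := by ring
    rw [e]
    refine (abs_sub _ _).trans ?_
    have e2 : ε / (R + 1) = ε / (2 * (R + 1)) + ε / (2 * (R + 1)) := by
      field_simp
      ring
    rw [e2]
    exact add_le_add h1.le h5.le
  calc |y 2| * |hs 1 (x * ‖y‖ / R) - (SS (N + 1) (x * ‖y‖ / R) - SS (N + 1) x)|
      ≤ R * (ε / (R + 1)) := mul_le_mul h2 h6 (abs_nonneg _) hR.le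
    _ < ε := by
      rw [mul_div_assoc', div_lt_iff₀ (by positivity)]
      nlinarith

theorem FF_cont (CFS : CfsStmt) {R x : ℝ} (hR : 0 < R) (hx : 0 < x) :
    ContinuousOn (FF R x) (HB R) := by
  have h1 : ContinuousOn (hs 1) (Icc 0 x) := by
    refine (SS_unif CFS x hx).continuousOn (Eventually.frequently (Eventually.of_forall fun N => ?_))
    unfold SS
    fun_prop
  have h2 : ContinuousOn (fun y : En 3 => hs 1 (x * ‖y‖ / R)) (HB R) :=
    h1.comp (by fun_prop) (fun y hy => arg_mem hR hx hy)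
  have h3 : Continuous (fun y : En 3 => y 2) :=
    (EuclideanSpace.proj (𝕜 := ℝ) (2 : Fin 3) : En 3 →L[ℝ] ℝ).continuous
  exact h3.continuousOn.mul h2

theorem q_bound (EVP : EvpStmt) {R x : ℝ} (hR : 0 < R) (hx : 0 < x) (K : ℕ) :
    ∃ C : ℝ, ∀ y ∈ HB R, |ev (qP R ((x / R) ^ 2) K) y| ≤ C * (R ^ 2 - ‖y‖ ^ 2) ∧
      |ev (qP R ((x / R) ^ 2) K) y| ≤ C * y 2 := by
  -- |S(z) - S(x)| ≤ c (R^2 - |y|^2)
  have hterm : ∀ k : ℕ, ∃ c : ℝ, 0 ≤ c ∧ ∀ s : ℝ, 0 ≤ s → s ≤ R ^ 2 →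
      |cf 1 k * (((x / R) ^ 2) ^ k * s ^ k) - cf 1 k * x ^ (2 * k)| ≤ c * (R ^ 2 - s) := by
    intro k
    refine ⟨|cf 1 k| * (((x / R) ^ 2) ^ k * (k * (R ^ 2) ^ (k - 1))), by positivity,
      fun s hs0 hsR => ?_⟩
    have e1 : x ^ (2 * k) = ((x / R) ^ 2) ^ k * (R ^ 2) ^ k := by
      rw [← pow_mul, ← pow_mul, ← mul_pow]
      congr 1
      field_simp
    have h2 : (R ^ 2) ^ k - s ^ k ≤ k * (R ^ 2) ^ (k - 1) * (R ^ 2 - s) := by
      have := (Commute.all (R ^ 2) s).geom_sum₂_mul k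
      rw [← this]
      refine mul_le_mul_of_nonneg_right ?_ (by linarith)
      have h3 : ∀ i ∈ Finset.range k, (R ^ 2) ^ i * s ^ (k - 1 - i) ≤ (R ^ 2) ^ (k - 1) := by
        intro i hi
        rw [Finset.mem_range] at hi
        have h4 : (R ^ 2) ^ (k - 1) = (R ^ 2) ^ i * (R ^ 2) ^ (k - 1 - i) := by
          rw [← pow_add]
          congr 1
          omega
        rw [h4]
        exact mul_le_mul_of_nonneg_left (pow_le_pow_left₀ hs0 hsR _) (by positivity)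
      refine (Finset.sum_le_card_nsmul _ _ _ h3).trans ?_
      rw [Finset.card_range, nsmul_eq_mul]
    have h5 : s ^ k ≤ (R ^ 2) ^ k := pow_le_pow_left₀ hs0 hsR _
    rw [e1, ← mul_sub, ← mul_sub, abs_mul, abs_mul, abs_sub_comm,
      abs_of_nonneg (show 0 ≤ (R ^ 2) ^ k - s ^ k by linarith),
      abs_of_nonneg (show 0 ≤ ((x / R) ^ 2) ^ k by positivity)]
    calc |cf 1 k| * (((x / R) ^ 2) ^ k * ((R ^ 2) ^ k - s ^ k))
        ≤ |cf 1 k| * (((x / R) ^ 2) ^ k * (k * (R ^ 2) ^ (k - 1) * (R ^ 2 - s))) := by gcongr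
      _ = _ := by ring
  choose c hc0 hc using hterm
  set D : ℝ := ∑ k ∈ Finset.range (K + 1), c k with hD
  have hD0 : 0 ≤ D := Finset.sum_nonneg fun k _ => hc0 k
  have hS : ∀ y ∈ HB R, |SS (K + 1) (x * ‖y‖ / R) - SS (K + 1) x| ≤ D * (R ^ 2 - ‖y‖ ^ 2) := by
    intro y hy
    have hy2 : ‖y‖ ^ 2 ≤ R ^ 2 := pow_le_pow_left₀ (norm_nonneg _) hy.1.le 2
    unfold SS
    rw [← Finset.sum_sub_distrib, hD, Finset.sum_mul]
    refine (Finset.abs_sum_le_sum_abs _ _).trans (Finset.sum_le_sum fun k _ => ?_)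
    have h1 := hc k (‖y‖ ^ 2) (by positivity) hy2
    have e : (x * ‖y‖ / R) ^ (2 * k) = ((x / R) ^ 2) ^ k * (‖y‖ ^ 2) ^ k := by
      rw [← pow_mul, ← pow_mul, ← mul_pow]
      congr 1
      ring
    rw [e]
    exact h1
  refine ⟨D * R + D * R ^ 2, fun y hy => ?_⟩
  have hy2 : ‖y‖ ^ 2 ≤ R ^ 2 := pow_le_pow_left₀ (norm_nonneg _) hy.1.le 2
  have h1 := hS y hy
  have h2 := hb_two_le hy
  have hpos : 0 < y 2 := hy.2
  rw [ev_qP EVP hR, abs_mul]
  rw [abs_of_pos hpos] at h2 ⊢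
  have hsq : 0 ≤ R ^ 2 - ‖y‖ ^ 2 := by linarith
  have hn : 0 ≤ ‖y‖ ^ 2 := by positivity
  constructor
  · calc y 2 * |SS (K + 1) (x * ‖y‖ / R) - SS (K + 1) x|
        ≤ R * (D * (R ^ 2 - ‖y‖ ^ 2)) := mul_le_mul h2 h1 (abs_nonneg _) hR.le
      _ ≤ (D * R + D * R ^ 2) * (R ^ 2 - ‖y‖ ^ 2) := by
        have : 0 ≤ D * R ^ 2 * (R ^ 2 - ‖y‖ ^ 2) := by positivity
        nlinarith
  · calc y 2 * |SS (K + 1) (x * ‖y‖ / R) - SS (K + 1) x|
        ≤ y 2 * (D * (R ^ 2 - ‖y‖ ^ 2)) := mul_le_mul_of_nonneg_left h1 hpos.le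
      _ ≤ y 2 * (D * R ^ 2) := by
        refine mul_le_mul_of_nonneg_left ?_ hpos.le
        exact mul_le_mul_of_nonneg_left (by linarith) hD0
      _ ≤ (D * R + D * R ^ 2) * y 2 := by
        have : 0 ≤ D * R * y 2 := by positivity
        nlinarith

theorem phi (CFS : CfsStmt) (LPF : LpfStmt) (EVP : EvpStmt) (COF : CofStmt)
    (IBP : IbpStmt) : PhiStmt := by
  intro R x hR hx h0
  set m : ℝ := (x / R) ^ 2 with hm
  have hm0 : 0 < m := by positivity
  have hdom := hb_dom hR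
  -- the functions
  have hex : ∀ K : ℕ, ∃ (f : Lp ℝ 2 (mu (HB R))) (G : Lp (En 3) 2 (mu (HB R))),
      (f, G) ∈ H10 (HB R) ∧ f =ᵐ[mu (HB R)] ev (qP R m K) ∧
        G =ᵐ[mu (HB R)] gradient (ev (qP R m K)) := by
    intro K
    obtain ⟨C, hC⟩ := q_bound EVP hR hx K
    exact COF R C _ hR (EVP.1 _) hC
  choose f G hfG hf hG using hex
  have hpm : ∀ N, MemLp (ev (pP m N)) 2 (mu (HB R)) := by
    intro N
    obtain ⟨C, hC⟩ := EVP.2.2.2.2.2.2.2 (pP m N) R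
    exact memLp_of (EVP.1 _).continuous.aestronglyMeasurable (fun y hy => hC y hy.1.le)
  set p : ℕ → Lp ℝ 2 (mu (HB R)) := fun N => (hpm N).toLp (ev (pP m N)) with hp
  have hpe : ∀ N, p N =ᵐ[mu (HB R)] ev (pP m N) := fun N => (hpm N).coeFn_toLp
  have hFm : MemLp (FF R x) 2 (mu (HB R)) := by
    have h1 : AEStronglyMeasurable (FF R x) (mu (HB R)) :=
      (FF_cont CFS hR hx).aestronglyMeasurable (hb_open R).measurableSet
    obtain ⟨N, hN⟩ := (Metric.tendstoUniformlyOn_iff.1 (unif_p CFS EVP hR hx) 1 one_pos).exists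
    obtain ⟨C, hC⟩ := EVP.2.2.2.2.2.2.2 (pP m N) R
    refine memLp_of h1 (C := C + 1) (fun y hy => ?_)
    have h2 := hN y hy
    rw [Real.dist_eq] at h2
    have h3 := hC y hy.1.le
    have h4 : FF R x y = (FF R x y - ev (pP m N) y) + ev (pP m N) y := by ring
    rw [h4]
    refine (abs_add_le _ _).trans ?_
    linarith
  set φ : Lp ℝ 2 (mu (HB R)) := hFm.toLp (FF R x) with hφ
  have hφe : φ =ᵐ[mu (HB R)] FF R x := hFm.coeFn_toLp
  have hfl : Tendsto f atTop (𝓝 φ) := tendsto_lp f φ _ _ hf hφe (unif_q CFS EVP hR hx h0)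
  have hpl : Tendsto p atTop (𝓝 φ) := tendsto_lp p φ _ _ hpe hφe (unif_p CFS EVP hR hx)
  -- the gradients
  have hinner : ∀ (g : Lp ℝ 2 (mu (HB R))) (N : ℕ),
      ∫ y, g y * ev (pP m N) y ∂(mu (HB R)) = ⟪g, p N⟫_ℝ := by
    intro g N
    rw [L2.inner_def]
    refine integral_congr_ae ?_
    filter_upwards [hpe N] with y hy
    rw [hy]
    simp only [RCLike.inner_apply, conj_trivial]
    ring
  have hibp : ∀ (u : Lp ℝ 2 (mu (HB R))) (F : Lp (En 3) 2 (mu (HB R))), (u, F) ∈ H10 (HB R) →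
      ∀ K, ⟪F, G K⟫_ℝ = m * ⟪u, p K⟫_ℝ := by
    intro u F hu K
    have h1 := IBP (HB R) u F (qP R m K) hdom hu
    have h2 : ∫ y, ⟪F y, gradient (ev (qP R m K)) y⟫_ℝ ∂(mu (HB R)) = ⟪F, G K⟫_ℝ := by
      rw [L2.inner_def]
      refine integral_congr_ae ?_
      filter_upwards [hG K] with y hy
      rw [hy]
    rw [h2] at h1
    rw [h1, ← hinner u K, lap_qP CFS LPF R m K, ← integral_neg, ← integral_const_mul]
    refine integral_congr_ae (Eventually.of_forall fun y => ?_)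
    have h3 : ev (- (MvPolynomial.C m * pP m K)) y = - (m * ev (pP m K) y) := by
      unfold ev
      rw [map_neg, map_mul, MvPolynomial.eval_C]
    simp only [h3]
    ring
  have hcau : CauchySeq G := by
    have hfc := hfl.cauchySeq
    have hpc := hpl.cauchySeq
    have hsq : ∀ K J : ℕ, ‖G K - G J‖ ^ 2 ≤ m * (‖f K - f J‖ * ‖p K - p J‖) := by
      intro K J
      have e : ‖G K - G J‖ ^ 2 = m * ⟪f K - f J, p K - p J⟫_ℝ := by
        rw [← real_inner_self_eq_norm_sq, inner_sub_left, inner_sub_right, inner_sub_right,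
          hibp _ _ (hfG K) K, hibp _ _ (hfG K) J, hibp _ _ (hfG J) K, hibp _ _ (hfG J) J,
          inner_sub_left, inner_sub_right, inner_sub_right]
        ring
      rw [e]
      exact mul_le_mul_of_nonneg_left (real_inner_le_norm _ _) hm0.le
    rw [Metric.cauchySeq_iff] at hfc hpc ⊢
    intro ε hε
    obtain ⟨N1, hN1⟩ := hfc (ε ^ 2 / m) (by positivity)
    obtain ⟨N2, hN2⟩ := hpc 1 one_pos
    refine ⟨max N1 N2, fun K hK J hJ => ?_⟩
    have h1 := hN1 K (le_trans (le_max_left _ _) hK) J (le_trans (le_max_left _ _) hJ)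
    have h2 := hN2 K (le_trans (le_max_right _ _) hK) J (le_trans (le_max_right _ _) hJ)
    rw [dist_eq_norm] at h1 h2 ⊢
    have h3 := hsq K J
    have h4 : m * (‖f K - f J‖ * ‖p K - p J‖) < ε ^ 2 := by
      have h5 : ‖f K - f J‖ * ‖p K - p J‖ ≤ ‖f K - f J‖ * 1 :=
        mul_le_mul_of_nonneg_left h2.le (norm_nonneg _)
      have h6 : m * ‖f K - f J‖ < ε ^ 2 := by
        rw [lt_div_iff₀ hm0] at h1
        linarith
      nlinarith
    exact lt_of_pow_lt_pow_left₀ 2 hε.le (lt_of_le_of_lt h3 h4)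
  obtain ⟨Gl, hGl⟩ := cauchySeq_tendsto_of_complete hcau
  refine ⟨φ, ?_, Gl, ?_, ?_⟩
  · -- nonzero
    intro hz
    have h1 : FF R x =ᵐ[volume.restrict (HB R)] fun _ => 0 := by
      have h2 : φ =ᵐ[mu (HB R)] 0 := by
        rw [hz]
        exact Lp.coeFn_zero _ _ _
      exact hφe.symm.trans h2
    have h2 := Measure.eqOn_open_of_ae_eq h1 (hb_open R) (FF_cont CFS hR hx) continuousOn_const
    have h3 : ∀ z ∈ Ioo 0 x, hs 1 z = 0 := by
      intro z hz'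
      have hε0 : 0 < z * R / x := by
        have := hz'.1
        positivity
      have hεR : z * R / x < R := by
        rw [div_lt_iff₀ hx]
        have := hz'.2
        nlinarith
      have h4 := h2 (pt_mem hε0 hεR)
      simp only [FF] at h4
      rw [pt_two, pt_norm hε0.le] at h4
      have h5 : x * (z * R / x) / R = z := by
        field_simp
      rw [h5] at h4
      exact (mul_eq_zero.1 h4).resolve_left hε0.ne'
    have h4 : ContinuousOn (hs 1) (Icc 0 x) := by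
      refine (SS_unif CFS x hx).continuousOn
        (Eventually.frequently (Eventually.of_forall fun N => ?_))
      unfold SS
      fun_prop
    have h5 : Tendsto (hs 1) (𝓝[Ioo 0 x] 0) (𝓝 (hs 1 0)) :=
      (h4 0 ⟨le_rfl, hx.le⟩).mono_left (nhdsWithin_mono _ Ioo_subset_Icc_self)
    have h6 : Tendsto (hs 1) (𝓝[Ioo 0 x] 0) (𝓝 0) := by
      refine tendsto_const_nhds.congr' ?_
      filter_upwards [self_mem_nhdsWithin] with z hz'
      exact (h3 z hz').symm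
    have hne : (𝓝[Ioo 0 x] (0 : ℝ)).NeBot := by
      rw [nhdsWithin_Ioo_eq_nhdsGT hx]
      infer_instance
    have h7 := tendsto_nhds_unique h5 h6
    have h8 : hs 1 0 = 1 := by
      unfold hs
      rw [tsum_eq_single 0]
      · rw [(CFS 1).2.1]
        simp
      · intro k hk
        rw [zero_pow (by omega), mul_zero]
    rw [h8] at h7
    exact one_ne_zero h7
  · exact isClosed_closure.mem_of_tendsto (hfl.prodMk_nhds hGl)
      (Eventually.of_forall fun K => hfG K)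
  · -- the equation
    intro ψ hψ
    have hψ1 : MemLp ψ 2 (mu (HB R)) :=
      (hψ.1.continuous.memLp_of_hasCompactSupport (p := 2) (μ := volume) hψ.2.1).restrict _
    have hψ2 : MemLp (gradient ψ) 2 (mu (HB R)) := by
      have h1 : Continuous (fderiv ℝ ψ) := hψ.1.continuous_fderiv (by simp)
      have h3 : HasCompactSupport (fderiv ℝ ψ) := hψ.2.1.fderiv ℝ
      have h2 : gradient ψ =
        fun x => (InnerProductSpace.toDual ℝ (En 3)).symm (fderiv ℝ ψ x) := rfl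
      have hc : Continuous (gradient ψ) := by
        rw [h2]
        exact (InnerProductSpace.toDual ℝ (En 3)).symm.continuous.comp h1
      have hs : HasCompactSupport (gradient ψ) := by
        rw [h2]
        exact h3.comp_left (g := fun y => (InnerProductSpace.toDual ℝ (En 3)).symm y) (by simp)
      exact (hc.memLp_of_hasCompactSupport (p := 2) (μ := volume) hs).restrict _
    set a : Lp ℝ 2 (mu (HB R)) := hψ1.toLp ψ with ha
    set b : Lp (En 3) 2 (mu (HB R)) := hψ2.toLp (gradient ψ) with hb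
    have hab : (a, b) ∈ H10 (HB R) := subset_closure ⟨ψ, hψ, hψ1.coeFn_toLp, hψ2.coeFn_toLp⟩
    have h1 : ∀ K, ⟪b, G K⟫_ℝ = m * ⟪a, p K⟫_ℝ := hibp a b hab
    have h2 : ⟪b, Gl⟫_ℝ = m * ⟪a, φ⟫_ℝ := by
      have l1 : Tendsto (fun K => ⟪b, G K⟫_ℝ) atTop (𝓝 ⟪b, Gl⟫_ℝ) :=
        tendsto_const_nhds.inner hGl
      have l2 : Tendsto (fun K => m * ⟪a, p K⟫_ℝ) atTop (𝓝 (m * ⟪a, φ⟫_ℝ)) :=
        (tendsto_const_nhds.inner hpl).const_mul m
      refine tendsto_nhds_unique l1 (l2.congr (fun K => (h1 K).symm))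
    have e1 : ∫ y, ⟪Gl y, gradient ψ y⟫_ℝ ∂(mu (HB R)) = ⟪b, Gl⟫_ℝ := by
      rw [L2.inner_def]
      refine integral_congr_ae ?_
      filter_upwards [hψ2.coeFn_toLp] with y hy
      rw [hb, hy, real_inner_comm]
    have e2 : ∫ y, φ y * ψ y ∂(mu (HB R)) = ⟪a, φ⟫_ℝ := by
      rw [L2.inner_def]
      refine integral_congr_ae ?_
      filter_upwards [hψ1.coeFn_toLp] with y hy
      rw [ha, hy]
      simp only [RCLike.inner_apply, conj_trivial]
    rw [e1, e2, h2]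

end

end Pool.Agent.BEB.H93
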