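import Pool.Agent.Helper93_BEB.ARI
import Pool.Agent.Helper93_BEB.PHI
import Pool.Agent.Helper93_BEB.CFS
import Pool.Agent.Helper52_BEB.LPF
import Pool.Agent.Helper19_BEB.ODP
import Pool.Agent.Helper1_BEB.FIS
import Pool.Agent.Helper45_BEB.HAO
import Pool.Agent.Helper95_BEB.SUR
import Pool.Agent.Helper94_BEB.COF
import Pool.Agent.Helper54_BEB.EVP
import Pool.Agent.Helper86_BEB.IBP
import Pool.Agent.Helper39_BEB.WEX
import Pool.Agent.Helper98_BEB.DEN
import Pool.Agent.Helper42_BEB.ORT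
import Pool.Agent.Helper3_BEB.SPE
import Pool.Agent.Helper24_BEB.HBR
import Pool.Agent.Helper46_BEB.REF
import Pool.Agent.Helper70_BE01.Conv

/-!
# Squad BEB (MP_be01ff_an): balls and half balls of `ℝ³`. All modules together.
-/

namespace Pool.Agent.BEB.Fin

open Pool.Agent.BEB
open Set Filter Topology MeasureTheory
open scoped InnerProductSpace ENNReal

theorem lpf : LpfStmt := H52.lpf

theorem odp : OdpStmt := H19.odp

theorem fis : FisStmt := H1.fis lpf odp

theorem evp : EvpStmt := H54.evp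

theorem ibp : IbpStmt := H86.ibp evp

theorem ort : OrtStmt := H42.ort H94.cof evp ibp H39.wex odp

theorem spe : SpeStmt := H3.spe H93.cfs lpf odp fis H45.hao (H95.sur odp) evp H98.den ort

theorem phi : PhiStmt := H93.phi H93.cfs lpf evp H94.cof ibp

/-- The half ball. -/
theorem half : HbrStmt := H24.hbr H93.ari spe phi

/-- The ball. -/
theorem ball (R a : ℝ) (p : ℕ) (hR : 0 < R) (ha : 0 < a) (hp : 1 ≤ p) :
    Rate (Metric.ball (0 : BE01.En 3) R) a ((2 * p : ℕ) : ℝ) := by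
  have h : 0 < 2 * p := by omega
  exact H46.ref H94.cof R a ((2 * p : ℕ) : ℝ) hR (by exact_mod_cast h) (half R a p hR ha hp)

/-- The half ball, formulated with functions. -/
theorem half_sharp (R a : ℝ) (p : ℕ) (hR : 0 < R) (ha : 0 < a) (hp : 1 ≤ p) :
    BE01F.SharpRate {x : BE01F.E 3 | ‖x‖ < R ∧ 0 < x 2} a ((2 * p : ℕ) : ℝ) :=
  Helper70BE01Conv.sharp_of (half R a p hR ha hp)

/-- The ball, formulated with functions. -/
theorem ball_sharp (R a : ℝ) (p : ℕ) (hR : 0 < R) (ha : 0 < a) (hp : 1 ≤ p) :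
    BE01F.SharpRate (Metric.ball (0 : BE01F.E 3) R) a ((2 * p : ℕ) : ℝ) :=
  Helper70BE01Conv.sharp_of (ball R a p hR ha hp)

end Pool.Agent.BEB.Fin
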